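import Mathlib

/-!
# Automatic continuity: Borel homomorphisms and finer Polish topologies
-/

open Set Filter Topology MeasureTheory

namespace Q214.NST

/-- A Borel homomorphism from a Polish group to a group with a second countable topology for which
the left translations are continuous is continuous. -/
theorem continuous_of_borel {H K : Type} [Group H] [TopologicalSpace H] [PolishSpace H]
    [ContinuousMul H] [MeasurableSpace H] [BorelSpace H]
    [Group K] [TopologicalSpace K] [SecondCountableTopology K]
    [MeasurableSpace K] [BorelSpace K] (hK : ∀ a : K, Continuous fun b : K => a * b)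
    (f : H →* K) (hf : Measurable f) : Continuous f := by
  rw [continuous_iff_seqContinuous]
  intro x a hx
  -- the set of the points of continuity
  let B := TopologicalSpace.countableBasis K
  have hBc : B.Countable := TopologicalSpace.countable_countableBasis K
  have hU : ∀ V : B, ∃ u, IsOpen u ∧ (f ⁻¹' V.1) =ᶠ[residual H] u := fun V =>
    (hf (TopologicalSpace.isOpen_of_mem_countableBasis V.2).measurableSet).residualEq_isOpen
  choose u hu1 hu2 using hU
  have _ : Countable B := hBc.to_subtype
  have hD : ∀ᶠ y in residual H, ∀ V : B, (y ∈ f ⁻¹' V.1 ↔ y ∈ u V) := by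
    rw [eventually_countable_forall]
    intro V
    filter_upwards [hu2 V] with y hy
    exact iff_of_eq hy
  have htrans : ∀ g : H, ∀ᶠ h in residual H, ∀ V : B, (h * g ∈ f ⁻¹' V.1 ↔ h * g ∈ u V) := by
    intro g
    exact (tendsto_residual_of_isOpenMap (continuous_mul_const g)
      (Homeomorph.mk (Equiv.mulRight g) (continuous_mul_const g)
        (continuous_mul_const g⁻¹)).isOpenMap).eventually hD
  have hall : ∀ᶠ h in residual H, (∀ n, ∀ V : B, (h * x n ∈ f ⁻¹' V.1 ↔ h * x n ∈ u V)) ∧
      ∀ V : B, (h * a ∈ f ⁻¹' V.1 ↔ h * a ∈ u V) := by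
    refine Filter.Eventually.and ?_ (htrans a)
    rw [eventually_countable_forall]
    exact fun n => htrans (x n)
  obtain ⟨h, h1, h2⟩ := (dense_of_mem_residual hall).nonempty
  -- convergence after translation
  have h3 : Tendsto (fun n => f (h * x n)) atTop (𝓝 (f (h * a))) := by
    rw [tendsto_nhds]
    intro W hW hmem
    obtain ⟨V, hV, hV1, hV2⟩ :=
      (TopologicalSpace.isBasis_countableBasis K).exists_subset_of_mem_open hmem hW
    have h4 : h * a ∈ u ⟨V, hV⟩ := (h2 ⟨V, hV⟩).1 hV1
    have h5 : Tendsto (fun n => h * x n) atTop (𝓝 (h * a)) :=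
      ((continuous_const_mul h).tendsto a).comp hx
    have h6 := h5.eventually ((hu1 ⟨V, hV⟩).mem_nhds h4)
    filter_upwards [h6] with n hn
    exact hV2 ((h1 n ⟨V, hV⟩).2 hn)
  have h7 : Tendsto (fun n => (f h)⁻¹ * f (h * x n)) atTop (𝓝 ((f h)⁻¹ * f (h * a))) :=
    ((hK (f h)⁻¹).tendsto _).comp h3
  simpa [Function.comp_def] using h7

/-- Two comparable Polish topologies on a group, such that the coarser one is a group topology (only
the multiplication matters) and the left translations are continuous for the finer one, are
equal. -/
theorem eq_of_le {G : Type} [Group G] {t t' : TopologicalSpace G} (ht : @PolishSpace G t)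
    (ht' : @PolishSpace G t') (hle : t ≤ t') (hmul : @ContinuousMul G t' _)
    (hleft : ∀ a : G, @Continuous G G t t (fun b => a * b)) : t = t' := by
  apply le_antisymm hle
  have hb : @borel G t = @borel G t' := borel_eq_borel_of_le ht ht' hle
  have key := @continuous_of_borel G G _ t' ht' hmul (@borel G t') (@BorelSpace.mk G t' (@borel G t') rfl)
    _ t (@PolishSpace.toSecondCountableTopology G t ht) (@borel G t) (@BorelSpace.mk G t (@borel G t) rfl)
    hleft (MonoidHom.id G) (by
      rw [hb]
      exact @measurable_id G (@borel G t'))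
  exact continuous_id_iff_le.1 key

end Q214.NST
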