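import Pool.Agent.Q214.NST.Uniq

/-!
# The Polish semigroup topologies on `S k`: there are exactly `k + 1` of them
-/

open Set Filter Topology TopologicalSpace

namespace Q214.NST

set_option linter.unusedSectionVars false

variable {k : ℕ}

/-- The topologies on the points: discrete, or the natural numbers converge to one additional
point. -/
@[reducible] def tY : Option (Fin k) → TopologicalSpace (Y k)
  | none => ⊥
  | some i => nhdsAdjoint (Sum.inr i) (map Sum.inl (cofinite : Filter ℕ))

lemma nhds_tY_inl (o : Option (Fin k)) (n : ℕ) :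
    @nhds _ (tY o) (Sum.inl n : Y k) = pure (Sum.inl n) := by
  cases o with
  | none => exact congrFun (@nhds_discrete (Y k) ⊥ (@DiscreteTopology.mk (Y k) ⊥ rfl)) _
  | some i =>
    show @nhds _ (nhdsAdjoint (Sum.inr i) (map Sum.inl (cofinite : Filter ℕ))) (Sum.inl n : Y k) = _
    rw [nhds_nhdsAdjoint]
    simp

lemma nhds_tY_same (i : Fin k) :
    @nhds _ (tY (some i)) (Sum.inr i : Y k) = pure (Sum.inr i) ⊔ map Sum.inl cofinite := by
  show @nhds _ (nhdsAdjoint (Sum.inr i) (map Sum.inl (cofinite : Filter ℕ))) (Sum.inr i : Y k) = _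
  rw [nhds_nhdsAdjoint]
  simp

lemma nhds_tY_other (o : Option (Fin k)) (j : Fin k) (h : o ≠ some j) :
    @nhds _ (tY o) (Sum.inr j : Y k) = pure (Sum.inr j) := by
  cases o with
  | none => exact congrFun (@nhds_discrete (Y k) ⊥ (@DiscreteTopology.mk (Y k) ⊥ rfl)) _
  | some i =>
    show @nhds _ (nhdsAdjoint (Sum.inr i) (map Sum.inl (cofinite : Filter ℕ))) (Sum.inr j : Y k) = _
    rw [nhds_nhdsAdjoint]
    have : (Sum.inr j : Y k) ≠ Sum.inr i := fun h' => h (congrArg some (Sum.inr_injective h').symm)
    simp [this]

lemma polish_tY (o : Option (Fin k)) : @PolishSpace (Y k) (tY o) := by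
  cases o with
  | none =>
    let _ : TopologicalSpace (Y k) := ⊥
    have _ : DiscreteTopology (Y k) := ⟨rfl⟩
    have h1 : SecondCountableTopology (Y k) := inferInstance
    have h2 : IsCompletelyMetrizableSpace (Y k) := inferInstance
    exact { toSecondCountableTopology := h1, toIsCompletelyMetrizableSpace := h2 }
  | some i =>
    let _ : TopologicalSpace (Y k) := tY (some i)
    have hiso : ∀ y : Y k, y ≠ Sum.inr i → 𝓝 y = pure y := by
      rintro (n | j) hy
      · exact nhds_tY_inl _ _
      · refine nhds_tY_other _ _ ?_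
        intro h
        exact hy (congrArg Sum.inr (Option.some.inj h).symm)
    have hi : 𝓝 (Sum.inr i : Y k) = pure (Sum.inr i) ⊔ map Sum.inl cofinite := nhds_tY_same i
    have hT2 : T2Space (Y k) := by
      rw [t2Space_iff_disjoint_nhds]
      have key : ∀ y z : Y k, y ≠ z → y ≠ Sum.inr i → Disjoint (𝓝 y) (𝓝 z) := by
        intro y z hyz hy
        rw [hiso y hy]
        have h1 : {y}ᶜ ∈ 𝓝 z := by
          by_cases hz : z = Sum.inr i
          · subst hz
            rw [hi, mem_sup]
            refine ⟨fun h => hyz h.symm, ?_⟩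
            rw [mem_map, mem_cofinite]
            refine Set.Finite.subset ((finite_singleton y).preimage (Sum.inl_injective.injOn)) ?_
            intro n hn
            simpa using hn
          · rw [hiso z hz]
            exact fun h => hyz h.symm
        rw [Filter.disjoint_iff]
        exact ⟨{y}, rfl, {y}ᶜ, h1, disjoint_compl_right⟩
      intro y z hyz
      by_cases hy : y = Sum.inr i
      · exact (key z y hyz.symm (fun h => hyz (hy.trans h.symm))).symm
      · exact key y z hyz hy
    have hfc : FirstCountableTopology (Y k) := by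
      constructor
      intro y
      by_cases hy : y = Sum.inr i
      · subst hy
        rw [hi, Nat.cofinite_eq_atTop]
        infer_instance
      · rw [hiso y hy]
        infer_instance
    have hcomp : CompactSpace (Y k) := by
      constructor
      rw [isCompact_iff_ultrafilter_le_nhds]
      intro u _
      rcases u.le_cofinite_or_eq_pure with h | ⟨y, rfl⟩
      · refine ⟨Sum.inr i, mem_univ _, h.trans ?_⟩
        rw [hi]
        intro A hA
        rw [mem_sup, mem_map, mem_cofinite] at hA
        rw [mem_cofinite]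
        have h1 : Aᶜ ⊆ (Sum.inl '' (Sum.inl ⁻¹' A)ᶜ) ∪ range (Sum.inr : Fin k → Y k) := by
          rintro (n | j) hn
          · exact Or.inl ⟨n, hn, rfl⟩
          · exact Or.inr ⟨j, rfl⟩
        exact ((hA.2.image _).union (finite_range _)).subset h1
      · exact ⟨y, mem_univ _, pure_le_nhds y⟩
    have h1 : SecondCountableTopology (Y k) := inferInstance
    have h2 : IsCompletelyMetrizableSpace (Y k) := by
      let _ : MetricSpace (Y k) := metrizableSpaceMetric (Y k)
      infer_instance
    exact { toSecondCountableTopology := h1, toIsCompletelyMetrizableSpace := h2 }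

/-- The topologies on the semigroup. -/
@[reducible] def tS (o : Option (Fin k)) : TopologicalSpace (S k) :=
  @instTopologicalSpaceSum G (Y k) tp (tY o)

lemma isOpen_tS (o : Option (Fin k)) (U : Set (S k)) :
    @IsOpen _ (tS o) U ↔ @IsOpen _ tp (io ⁻¹' U) ∧ @IsOpen _ (tY o) (co ⁻¹' U) :=
  @isOpen_sum_iff G (Y k) tp (tY o) U

lemma polish_tS (o : Option (Fin k)) : @PolishSpace (S k) (tS o) := by
  let _ : TopologicalSpace G := tp
  let _ : TopologicalSpace (Y k) := tY o
  have _ : PolishSpace G := polish_tp
  have _ : PolishSpace (Y k) := polish_tY o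
  have : PolishSpace (G ⊕ Y k) := inferInstance
  exact this

lemma continuous_act (o : Option (Fin k)) :
    @Continuous (G × Y k) (Y k) (@instTopologicalSpaceProd _ _ tp (tY o)) (tY o)
      (fun p => act p.1 p.2) := by
  let _ : TopologicalSpace G := tp
  let _ : TopologicalSpace (Y k) := tY o
  have hev : ∀ (g : G) (n : ℕ), ∀ᶠ h : G in 𝓝 g, h n = g n := fun g n =>
    (tp_ev n (g n)).mem_nhds rfl
  have hevi : ∀ (g : G) (n : ℕ), ∀ᶠ h : G in 𝓝 g, h⁻¹ n = g⁻¹ n := fun g n =>
    (tp_ev_inv n (g⁻¹ n)).mem_nhds rfl
  rw [continuous_iff_continuousAt]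
  rintro ⟨g, y⟩
  show Tendsto _ (𝓝 (g, y)) _
  rw [nhds_prod_eq]
  rcases y with n | j
  · rw [nhds_tY_inl o n]
    have h1 : ∀ᶠ p : G × Y k in 𝓝 g ×ˢ pure (Sum.inl n), act p.1 p.2 = act g (Sum.inl n) := by
      rw [prod_pure, eventually_map]
      filter_upwards [hev g n] with h hh
      show Sum.inl (h n) = Sum.inl (g n)
      rw [hh]
    exact tendsto_nhds_of_eventually_eq h1
  · by_cases ho : o = some j
    · subst ho
      show Tendsto _ _ (𝓝 (Sum.inr j : Y k))
      rw [nhds_tY_same j, prod_sup]
      apply Tendsto.sup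
      · refine Tendsto.mono_right ?_ le_sup_left
        rw [prod_pure, tendsto_map'_iff, tendsto_pure]
        exact Eventually.of_forall fun h => rfl
      · refine Tendsto.mono_right ?_ le_sup_right
        intro A hA
        rw [mem_map, mem_cofinite] at hA
        rw [mem_map]
        have h1 : ∀ᶠ h : G in 𝓝 g, ∀ n ∈ hA.toFinset, h⁻¹ n = g⁻¹ n := by
          rw [Filter.eventually_all_finset]
          exact fun n _ => hevi g n
        have h2 : ∀ᶠ y : Y k in map Sum.inl cofinite, ∃ m, y = Sum.inl m ∧ Sum.inl (g m) ∈ A := by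
          rw [eventually_map]
          have h3 : {m : ℕ | ¬ (Sum.inl (g m) : Y k) ∈ A}.Finite := by
            have : {m : ℕ | ¬ (Sum.inl (g m) : Y k) ∈ A} = g ⁻¹' (Sum.inl ⁻¹' A)ᶜ := rfl
            rw [this]
            exact hA.preimage g.injective.injOn
          have h4 : {m : ℕ | (Sum.inl (g m) : Y k) ∈ A} ∈ (cofinite : Filter ℕ) := by
            rw [mem_cofinite]
            exact h3
          filter_upwards [h4] with m hm
          exact ⟨m, rfl, hm⟩
        filter_upwards [h1.prod_mk h2] with p hp
        obtain ⟨hp1, m, hp2, hp3⟩ := hp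
        show act p.1 p.2 ∈ A
        rw [hp2, act_inl]
        by_contra hne
        have h5 : p.1 m ∈ hA.toFinset := by
          rw [Set.Finite.mem_toFinset]
          exact hne
        have h6 := hp1 _ h5
        have h7 : p.1⁻¹ (p.1 m) = m := p.1.symm_apply_apply m
        rw [h7, eq_comm, Equiv.Perm.inv_eq_iff_eq] at h6
        rw [h6] at hne
        exact hne hp3
    · rw [nhds_tY_other o j ho]
      have h1 : ∀ᶠ p : G × Y k in 𝓝 g ×ˢ pure (Sum.inr j), act p.1 p.2 = act g (Sum.inr j) := by
        rw [prod_pure, eventually_map]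
        exact Eventually.of_forall fun h => rfl
      exact tendsto_nhds_of_eventually_eq h1

lemma continuousMul_tS (o : Option (Fin k)) : @ContinuousMul (S k) (tS o) _ := by
  let _ : TopologicalSpace G := tp
  let _ : TopologicalSpace (Y k) := tY o
  let _ : TopologicalSpace (S k) := tS o
  have _ : ContinuousMul G := continuousMul_tp
  have hio : IsOpenEmbedding (io : G → S k) := IsOpenEmbedding.inl
  have hco : IsOpenEmbedding (co : Y k → S k) := IsOpenEmbedding.inr
  constructor
  rw [continuous_iff_continuousAt]
  rintro ⟨s, t⟩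
  rcases S_cases s with ⟨g, rfl⟩ | ⟨y, rfl⟩
  · rcases S_cases t with ⟨h, rfl⟩ | ⟨y, rfl⟩
    · rw [show ((io g : S k), (io h : S k)) = Prod.map io io (g, h) from rfl,
        ← (hio.prodMap hio).continuousAt_iff]
      have : ((fun p : S k × S k => p.1 * p.2) ∘ Prod.map io io) =
          (io : G → S k) ∘ fun p : G × G => p.1 * p.2 := rfl
      rw [this]
      exact (hio.continuous.comp continuous_mul).continuousAt
    · rw [show ((io g : S k), (co y : S k)) = Prod.map io co (g, y) from rfl,
        ← (hio.prodMap hco).continuousAt_iff]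
      have : ((fun p : S k × S k => p.1 * p.2) ∘ Prod.map io co) =
          (co : Y k → S k) ∘ fun p : G × Y k => act p.1 p.2 := rfl
      rw [this]
      exact (hco.continuous.comp (continuous_act o)).continuousAt
  · rw [show ((co y : S k), t) = Prod.map co id (y, t) from rfl,
      ← (hco.prodMap (IsOpenEmbedding.id)).continuousAt_iff]
    have : ((fun p : S k × S k => p.1 * p.2) ∘ Prod.map co id) =
        (co : Y k → S k) ∘ fun p : Y k × S k => p.1 := by
      funext p
      exact co_mul _ _
    rw [this]
    exact (hco.continuous.comp continuous_fst).continuousAt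

lemma tS_injective : Function.Injective (tS : Option (Fin k) → TopologicalSpace (S k)) := by
  have key : ∀ (o : Option (Fin k)) (i : Fin k),
      @IsOpen _ (tS o) {co (Sum.inr i)} ↔ o ≠ some i := by
    intro o i
    rw [isOpen_tS]
    have h1 : (io ⁻¹' {(co (Sum.inr i) : S k)} : Set G) = ∅ := by
      ext g
      simp only [mem_preimage, mem_singleton_iff, mem_empty_iff_false, iff_false]
      exact io_ne_co _ _
    have h2 : (co ⁻¹' {(co (Sum.inr i) : S k)} : Set (Y k)) = {Sum.inr i} := by
      ext y
      simp only [mem_preimage, mem_singleton_iff]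
      exact ⟨fun h => co_inj h, fun h => by rw [h]⟩
    rw [h1, h2]
    constructor
    · rintro ⟨_, h⟩ rfl
      have h3 := @IsOpen.mem_nhds _ (tY (some i)) (Sum.inr i : Y k) {Sum.inr i} h rfl
      rw [nhds_tY_same, mem_sup, mem_map, mem_cofinite] at h3
      have h4 : (Sum.inl ⁻¹' {(Sum.inr i : Y k)} : Set ℕ)ᶜ = Set.univ := by
        ext n
        simp
      rw [h4] at h3
      exact infinite_univ h3.2
    · intro h
      refine ⟨@isOpen_empty _ tp, ?_⟩
      rw [@isOpen_iff_mem_nhds _ (tY o)]
      rintro y rfl
      rw [nhds_tY_other o i h]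
      exact mem_pure.2 rfl
  intro o o' h
  have h1 : ∀ i, o ≠ some i ↔ o' ≠ some i := fun i => by rw [← key, ← key, h]
  have h2 : ∀ i, o = some i ↔ o' = some i := fun i => not_iff_not.1 (h1 i)
  exact Option.ext h2

/-- Every Polish semigroup topology on `S k` is one of these. -/
theorem classification (τ : TopologicalSpace (S k)) (hP : @PolishSpace (S k) τ)
    (hM : @ContinuousMul (S k) τ _) : ∃ o, τ = tS o := by
  classical
  -- the topology of the constants
  have hY : ∃ o : Option (Fin k), TopologicalSpace.induced (co : Y k → S k) τ = tY o := by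
    have hnhds : ∀ j : Fin k, comap (co : Y k → S k) (@nhds _ τ (co (Sum.inr j))) =
        pure (Sum.inr j) ⊔ map Sum.inl (FF j) := by
      intro j
      apply le_antisymm
      · intro A hA
        rw [mem_sup, mem_map] at hA
        obtain ⟨h1, W, hW, hsub⟩ := hA
        have h2 : ((fun i : Fin k => (co (Sum.inr i) : S k)) '' {i | i ≠ j})ᶜ ∈
            𝓝 (co (Sum.inr j) : S k) := by
          refine (Set.Finite.isClosed ((toFinite _).image _)).isOpen_compl.mem_nhds ?_
          rintro ⟨i, hi, h⟩
          exact hi (Sum.inr_injective (co_inj h))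
        refine ⟨_, inter_mem hW h2, ?_⟩
        rintro (n | i) ⟨h3, h4⟩
        · exact hsub h3
        · by_cases hij : i = j
          · subst hij
            exact h1
          · exact absurd ⟨i, hij, rfl⟩ h4
      · apply sup_le
        · rw [← map_le_iff_le_comap, map_pure]
          exact pure_le_nhds _
        · rw [← map_le_iff_le_comap, map_map]
          exact map_comap_le
    have hinl : ∀ n : ℕ, comap (co : Y k → S k) (@nhds _ τ (co (Sum.inl n))) =
        pure (Sum.inl n) := by
      intro n
      have h1 : 𝓝 (co (Sum.inl n) : S k) = pure (co (Sum.inl n)) :=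
        (isOpen_singleton_iff_nhds_eq_pure _).1 (isOpen_const n)
      rw [h1, ← principal_singleton, comap_principal, ← principal_singleton]
      congr 1
      ext y
      simp only [mem_preimage, mem_singleton_iff]
      exact ⟨fun h => co_inj h, fun h => by rw [h]⟩
    by_cases hex : ∃ j : Fin k, FF j = cofinite
    · obtain ⟨j, hj⟩ := hex
      refine ⟨some j, TopologicalSpace.ext_nhds ?_⟩
      rintro (n | i)
      · rw [nhds_induced, hinl, nhds_tY_inl]
      · rw [nhds_induced, hnhds]
        by_cases hij : i = j
        · subst hij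
          rw [nhds_tY_same, hj]
        · have h1 : FF i = ⊥ := by
            rcases FF_dichotomy i with h | h
            · exact h
            · exact absurd (FF_unique h hj) hij
          rw [h1, nhds_tY_other _ _ (fun h => hij (Option.some.inj h).symm), map_bot, sup_bot_eq]
    · refine ⟨none, TopologicalSpace.ext_nhds ?_⟩
      rintro (n | i)
      · rw [nhds_induced, hinl, nhds_tY_inl]
      · rw [nhds_induced, hnhds]
        have h1 : FF i = ⊥ := by
          rcases FF_dichotomy i with h | h
          · exact h
          · exact absurd ⟨i, h⟩ hex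
        rw [h1, nhds_tY_other _ _ (by simp), map_bot, sup_bot_eq]
  obtain ⟨o, ho⟩ := hY
  refine ⟨o, ?_⟩
  have hG := induced_io (k := k)
  apply TopologicalSpace.ext
  funext U
  apply propext
  show @IsOpen _ τ U ↔ @IsOpen _ (tS o) U
  rw [isOpen_tS, ← ho, ← hG]
  constructor
  · intro h
    exact ⟨isOpen_induced h, isOpen_induced h⟩
  · rintro ⟨h1, h2⟩
    obtain ⟨V, hV, hV2⟩ := isOpen_induced_iff.1 h1
    obtain ⟨W, hW, hW2⟩ := isOpen_induced_iff.1 h2
    have : U = (V ∩ range io) ∪ (W ∩ range co) := by
      ext s
      rcases S_cases s with ⟨g, rfl⟩ | ⟨y, rfl⟩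
      · have h3 : io g ∈ U ↔ io g ∈ V := by
          show g ∈ io ⁻¹' U ↔ g ∈ io ⁻¹' V
          rw [hV2]
        rw [h3]
        constructor
        · intro h
          exact Or.inl ⟨h, ⟨g, rfl⟩⟩
        · rintro (h | ⟨_, ⟨y, hy⟩⟩)
          · exact h.1
          · exact absurd hy.symm (io_ne_co _ _)
      · have h3 : co y ∈ U ↔ co y ∈ W := by
          show y ∈ co ⁻¹' U ↔ y ∈ co ⁻¹' W
          rw [hW2]
        rw [h3]
        constructor
        · intro h
          exact Or.inr ⟨h, ⟨y, rfl⟩⟩
        · rintro (⟨_, ⟨g, hg⟩⟩ | h)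
          · exact absurd hg (io_ne_co _ _)
          · exact h.1
    rw [this]
    exact (hV.inter isOpen_range_io).union (hW.inter isOpen_range_co)

/-- The number of Polish semigroup topologies is `k + 1`. -/
theorem card_topologies (k : ℕ) :
    Cardinal.mk {τ : TopologicalSpace (S k) // @PolishSpace (S k) τ ∧ @ContinuousMul (S k) τ _} =
      (k + 1 : ℕ) := by
  let f : Option (Fin k) → {τ : TopologicalSpace (S k) // @PolishSpace (S k) τ ∧
      @ContinuousMul (S k) τ _} := fun o => ⟨tS o, polish_tS o, continuousMul_tS o⟩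
  have hf : Function.Bijective f := by
    constructor
    · intro o o' h
      exact tS_injective (congrArg Subtype.val h)
    · rintro ⟨τ, h1, h2⟩
      obtain ⟨o, ho⟩ := classification τ h1 h2
      exact ⟨o, Subtype.ext ho.symm⟩
  rw [← Cardinal.mk_congr (Equiv.ofBijective f hf), Cardinal.mk_fintype]
  simp

end Q214.NST
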