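import Pool.Agent.Q214.NST.AC

/-!
# The semigroup of the permutations of `ℕ` and of the constants of `ℕ ∪ {∞₁, …, ∞ₖ}`
-/

open Set Filter Topology TopologicalSpace

namespace Q214.NST

/-- The permutations of the natural numbers. -/
abbrev G : Type := Equiv.Perm ℕ

/-- The natural numbers with `k` additional points. -/
abbrev Y (k : ℕ) : Type := ℕ ⊕ Fin k

/-- The semigroup: permutations and constants. -/
def S (k : ℕ) : Type := G ⊕ Y k

variable {k : ℕ}

/-- The action of the permutations on the natural numbers with additional points. -/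
def act (g : G) (y : Y k) : Y k := Sum.map g id y

@[simp] lemma act_inl (g : G) (n : ℕ) : act g (Sum.inl n : Y k) = Sum.inl (g n) := rfl
@[simp] lemma act_inr (g : G) (j : Fin k) : act g (Sum.inr j : Y k) = Sum.inr j := rfl

lemma act_mul (g h : G) (y : Y k) : act (g * h) y = act g (act h y) := by
  rcases y with n | j <;> rfl

lemma act_one (y : Y k) : act 1 y = y := by
  rcases y with n | j <;> rfl

/-- The permutations as elements of the semigroup. -/
def io (g : G) : S k := Sum.inl g

/-- The constants as elements of the semigroup. -/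
def co (y : Y k) : S k := Sum.inr y

/-- The composition. -/
def mulS : S k → S k → S k
  | Sum.inl g, Sum.inl h => Sum.inl (g * h)
  | Sum.inl g, Sum.inr y => Sum.inr (act g y)
  | Sum.inr y, _ => Sum.inr y

instance : Semigroup (S k) where
  mul := mulS
  mul_assoc := by
    rintro (g | y) (h | z) (l | w)
    · exact congrArg Sum.inl (mul_assoc g h l)
    · exact congrArg Sum.inr (act_mul g h w)
    all_goals rfl

lemma io_mul_io (g h : G) : (io g * io h : S k) = io (g * h) := rfl
lemma io_mul_co (g : G) (y : Y k) : (io g * co y : S k) = co (act g y) := rfl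
lemma co_mul (y : Y k) (s : S k) : co y * s = co y := rfl
lemma io_ne_co (g : G) (y : Y k) : (io g : S k) ≠ co y := Sum.inl_ne_inr
lemma io_inj {g h : G} (hgh : (io g : S k) = io h) : g = h := Sum.inl_injective hgh
lemma co_inj {y z : Y k} (h : (co y : S k) = co z) : y = z := Sum.inr_injective h
lemma S_cases (s : S k) : (∃ g, s = io g) ∨ ∃ y, s = co y := by
  rcases s with g | y
  · exact Or.inl ⟨g, rfl⟩
  · exact Or.inr ⟨y, rfl⟩

lemma io_one_mul (s : S k) : io 1 * s = s := by
  rcases S_cases s with ⟨g, rfl⟩ | ⟨y, rfl⟩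
  · rw [io_mul_io, one_mul]
  · rw [io_mul_co, act_one]

lemma mul_io_one (s : S k) : s * io 1 = s := by
  rcases S_cases s with ⟨g, rfl⟩ | ⟨y, rfl⟩
  · rw [io_mul_io, mul_one]
  · rw [co_mul]

/-! ### The topology of pointwise convergence on the permutations -/

lemma ev_eq {A : Type*} [TopologicalSpace A] {F : A → ℕ} (hF : Continuous F) (x : A) :
    ∀ᶠ q in 𝓝 x, F q = F x :=
  ((isOpen_discrete {F x}).preimage hF).mem_nhds rfl

/-- The topology of pointwise convergence. -/
@[reducible] def tp : TopologicalSpace G :=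
  TopologicalSpace.induced (fun g : G => ((g : ℕ → ℕ), ((g⁻¹ : G) : ℕ → ℕ))) inferInstance

lemma tp_closedEmbedding :
    @IsClosedEmbedding G ((ℕ → ℕ) × (ℕ → ℕ)) tp _
      (fun g : G => ((g : ℕ → ℕ), ((g⁻¹ : G) : ℕ → ℕ))) := by
  let _ : TopologicalSpace G := tp
  refine ⟨⟨⟨rfl⟩, ?_⟩, ?_⟩
  · intro g h hgh
    exact Equiv.coe_fn_injective (congrArg Prod.fst hgh)
  · have : range (fun g : G => ((g : ℕ → ℕ), ((g⁻¹ : G) : ℕ → ℕ))) =
        ⋂ n : ℕ, ({p : (ℕ → ℕ) × (ℕ → ℕ) | p.1 (p.2 n) = n} ∩ {p | p.2 (p.1 n) = n}) := by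
      ext p
      simp only [mem_range, mem_iInter, mem_inter_iff, mem_ofPred_eq]
      constructor
      · rintro ⟨g, rfl⟩ n
        exact ⟨g.apply_symm_apply n, g.symm_apply_apply n⟩
      · intro h
        refine ⟨⟨p.1, p.2, fun n => (h n).2, fun n => (h n).1⟩, ?_⟩
        rfl
    rw [this]
    have hev : ∀ n : ℕ, Continuous fun q : (ℕ → ℕ) × ℕ => q.1 q.2 := by
      intro n
      rw [continuous_iff_continuousAt]
      rintro ⟨f, m⟩
      have h1 : ∀ᶠ q : (ℕ → ℕ) × ℕ in 𝓝 (f, m), q.1 q.2 = f m := by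
        have h2 : ∀ᶠ q : (ℕ → ℕ) × ℕ in 𝓝 (f, m), q.2 = m :=
          ev_eq continuous_snd (f, m)
        have h3 : ∀ᶠ q : (ℕ → ℕ) × ℕ in 𝓝 (f, m), q.1 m = f m :=
          ev_eq ((continuous_apply (A := fun _ : ℕ => ℕ) m).comp continuous_fst) (f, m)
        filter_upwards [h2, h3] with q hq2 hq3
        rw [hq2, hq3]
      exact tendsto_nhds_of_eventually_eq h1
    refine isClosed_iInter fun n => IsClosed.inter ?_ ?_
    · refine isClosed_eq ?_ continuous_const
      exact (hev 0).comp (continuous_fst.prodMk ((continuous_apply n).comp continuous_snd))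
    · refine isClosed_eq ?_ continuous_const
      exact (hev 0).comp (continuous_snd.prodMk ((continuous_apply n).comp continuous_fst))

lemma polish_tp : @PolishSpace G tp := by
  let _ : TopologicalSpace G := tp
  exact (tp_closedEmbedding).polishSpace

lemma tp_ev (n m : ℕ) : @IsOpen G tp {g | g n = m} := by
  let _ : TopologicalSpace G := tp
  have hc : Continuous fun g : G => (g n : ℕ) :=
    (continuous_apply (A := fun _ : ℕ => ℕ) n).comp
      (continuous_fst.comp (continuous_induced_dom (f := fun g : G =>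
        ((g : ℕ → ℕ), ((g⁻¹ : G) : ℕ → ℕ)))))
  exact (isOpen_discrete {m}).preimage hc

lemma tp_ev_inv (n m : ℕ) : @IsOpen G tp {g | g⁻¹ n = m} := by
  have : {g : G | g⁻¹ n = m} = {g | g m = n} := by
    ext g
    simp only [mem_ofPred_eq]
    rw [Equiv.Perm.inv_eq_iff_eq]
    exact eq_comm
  rw [this]
  exact tp_ev m n

/-- A topology on the permutations is finer than the pointwise one if the point stabilisers and
their cosets are open. -/
lemma le_tp (t : TopologicalSpace G) (h : ∀ n m : ℕ, @IsOpen G t {g | g n = m}) : t ≤ tp := by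
  rw [← continuous_id_iff_le, tp, continuous_induced_rng]
  let _ : TopologicalSpace G := t
  have h1 : ∀ n : ℕ, Continuous fun g : G => (g n : ℕ) := by
    intro n
    rw [continuous_discrete_rng]
    intro m
    exact h n m
  have h2 : ∀ n : ℕ, Continuous fun g : G => (g⁻¹ n : ℕ) := by
    intro n
    rw [continuous_discrete_rng]
    intro m
    have : (fun g : G => (g⁻¹ n : ℕ)) ⁻¹' {m} = {g | g m = n} := by
      ext g
      simp only [mem_preimage, mem_singleton_iff, mem_ofPred_eq]
      rw [Equiv.Perm.inv_eq_iff_eq]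
      exact eq_comm
    rw [this]
    exact h m n
  exact (continuous_pi h1).prodMk (continuous_pi h2)

lemma continuousMul_tp : @ContinuousMul G tp _ := by
  let _ : TopologicalSpace G := tp
  have hev : Continuous fun q : (ℕ → ℕ) × (ℕ → ℕ) => q.1 ∘ q.2 := by
    refine continuous_pi fun n => ?_
    rw [continuous_iff_continuousAt]
    rintro ⟨f, g⟩
    have h1 : ∀ᶠ q : (ℕ → ℕ) × (ℕ → ℕ) in 𝓝 (f, g), (q.1 ∘ q.2) n = (f ∘ g) n := by
      have h2 : ∀ᶠ q : (ℕ → ℕ) × (ℕ → ℕ) in 𝓝 (f, g), q.2 n = g n :=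
        ev_eq ((continuous_apply (A := fun _ : ℕ => ℕ) n).comp continuous_snd) (f, g)
      have h3 : ∀ᶠ q : (ℕ → ℕ) × (ℕ → ℕ) in 𝓝 (f, g), q.1 (g n) = f (g n) :=
        ev_eq ((continuous_apply (A := fun _ : ℕ => ℕ) (g n)).comp continuous_fst) (f, g)
      filter_upwards [h2, h3] with q hq2 hq3
      show q.1 (q.2 n) = f (g n)
      rw [hq2, hq3]
    exact tendsto_nhds_of_eventually_eq h1
  constructor
  have hind : Continuous fun g : G => ((g : ℕ → ℕ), ((g⁻¹ : G) : ℕ → ℕ)) := continuous_induced_dom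
  have hc : Continuous ((fun g : G => ((g : ℕ → ℕ), ((g⁻¹ : G) : ℕ → ℕ))) ∘
      fun p : G × G => p.1 * p.2) := by
    have h1 : Continuous fun p : G × G => ((p.1 : ℕ → ℕ) ∘ (p.2 : ℕ → ℕ)) :=
      hev.comp ((continuous_fst.comp (hind.comp continuous_fst)).prodMk
        (continuous_fst.comp (hind.comp continuous_snd)))
    have h2 : Continuous fun p : G × G => (((p.2⁻¹ : G) : ℕ → ℕ) ∘ ((p.1⁻¹ : G) : ℕ → ℕ)) :=
      hev.comp ((continuous_snd.comp (hind.comp continuous_snd)).prodMk
        (continuous_snd.comp (hind.comp continuous_fst)))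
    have h3 : ((fun g : G => ((g : ℕ → ℕ), ((g⁻¹ : G) : ℕ → ℕ))) ∘
        fun p : G × G => p.1 * p.2) = fun p : G × G => ((p.1 : ℕ → ℕ) ∘ (p.2 : ℕ → ℕ),
          ((p.2⁻¹ : G) : ℕ → ℕ) ∘ ((p.1⁻¹ : G) : ℕ → ℕ)) := by
      funext p
      simp only [Function.comp_def, mul_inv_rev]
      rfl
    rw [h3]
    exact h1.prodMk h2
  exact continuous_induced_rng.2 hc

end Q214.NST
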