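import Pool.Agent.Q214.NST.Semi

/-!
# The structure of a Polish semigroup topology on `S k`
-/

open Set Filter Topology TopologicalSpace

namespace Q214.NST

set_option linter.unusedSectionVars false

variable {k : ℕ}

section

variable [TopologicalSpace (S k)] [PolishSpace (S k)] [ContinuousMul (S k)]

lemma range_co_eq : range (co : Y k → S k) = {s | s * co (Sum.inl 0) = s} := by
  ext s
  constructor
  · rintro ⟨y, rfl⟩
    exact co_mul _ _
  · intro h
    rcases S_cases s with ⟨g, rfl⟩ | ⟨y, rfl⟩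
    · have h2 : (io g : S k) * co (Sum.inl 0) = io g := h
      rw [io_mul_co] at h2
      exact absurd h2.symm (io_ne_co _ _)
    · exact ⟨y, rfl⟩

lemma isClosed_range_co : IsClosed (range (co : Y k → S k)) := by
  rw [range_co_eq]
  exact isClosed_eq (continuous_mul_const _) continuous_id

lemma compl_range_co : (range (co : Y k → S k))ᶜ = range (io : G → S k) := by
  ext s
  rcases S_cases s with ⟨g, rfl⟩ | ⟨y, rfl⟩
  · simp only [mem_compl_iff, mem_range, not_exists]
    exact ⟨fun _ => ⟨g, rfl⟩, fun _ y h => io_ne_co g y h.symm⟩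
  · simp only [mem_compl_iff, mem_range, not_exists]
    exact ⟨fun h => absurd rfl (h y), fun ⟨g, hg⟩ => absurd hg (io_ne_co g y)⟩

lemma isOpen_range_io : IsOpen (range (io : G → S k)) := by
  rw [← compl_range_co]
  exact isClosed_range_co.isOpen_compl

/-- Some constant is isolated among the constants. -/
lemma exists_isolated : ∃ (n : ℕ) (O : Set (S k)), IsOpen O ∧
    O ∩ range (co : Y k → S k) = {co (Sum.inl n)} := by
  have hVo : IsOpen (range (fun j : Fin k => (co (Sum.inr j) : S k)))ᶜ :=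
    (finite_range _).isClosed.isOpen_compl
  let V : Set (S k) := (range (fun j : Fin k => (co (Sum.inr j) : S k)))ᶜ
  have _ : PolishSpace V := hVo.polishSpace
  let D : Set V := {v : V | v.1 ∈ range (co : Y k → S k)}
  have hD : IsClosed D := isClosed_range_co.preimage continuous_subtype_val
  have _ : PolishSpace D := hD.polishSpace
  have hV : ∀ n : ℕ, (co (Sum.inl n) : S k) ∈ V := by
    rintro n ⟨j, hj⟩
    exact absurd (co_inj hj) Sum.inr_ne_inl
  let p : ℕ → D := fun n => ⟨⟨co (Sum.inl n), hV n⟩, ⟨_, rfl⟩⟩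
  have _ : Nonempty D := ⟨p 0⟩
  have hcov : ⋃ n, ({p n} : Set D) = Set.univ := by
    apply eq_univ_of_forall
    rintro ⟨⟨s, hs⟩, ⟨y, hy⟩⟩
    rw [mem_iUnion]
    rcases y with n | j
    · refine ⟨n, ?_⟩
      rw [mem_singleton_iff]
      apply Subtype.ext
      apply Subtype.ext
      exact hy.symm
    · exact absurd ⟨j, hy⟩ hs
  obtain ⟨n, q, hq⟩ := nonempty_interior_of_iUnion_of_closed
    (fun n => (isClosed_singleton : IsClosed ({p n} : Set D))) hcov
  have hq' : q = p n := mem_singleton_iff.1 (interior_subset hq)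
  rw [hq'] at hq
  rw [mem_interior] at hq
  obtain ⟨W, hW1, hW2, hW3⟩ := hq
  obtain ⟨W', hW'1, hW'2⟩ := isOpen_induced_iff.1 hW2
  obtain ⟨W'', hW''1, hW''2⟩ := isOpen_induced_iff.1 hW'1
  refine ⟨n, W'' ∩ V, hW''1.inter hVo, ?_⟩
  apply Subset.antisymm
  · rintro s ⟨⟨h1, h2⟩, h3⟩
    have h4 : (⟨⟨s, h2⟩, h3⟩ : D) ∈ W := by
      rw [← hW'2]
      show (⟨s, h2⟩ : V) ∈ W'
      rw [← hW''2]
      exact h1
    have h5 := hW1 h4
    rw [mem_singleton_iff] at h5
    exact congrArg (fun d : D => d.1.1) h5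
  · rintro s hs
    rw [mem_singleton_iff] at hs
    subst hs
    refine ⟨⟨?_, hV n⟩, ⟨_, rfl⟩⟩
    have h4 : p n ∈ (Subtype.val ⁻¹' W' : Set D) := by rw [hW'2]; exact hW3
    have h5 : (⟨co (Sum.inl n), hV n⟩ : V) ∈ (Subtype.val ⁻¹' W'' : Set V) := by
      rw [hW''2]
      exact h4
    exact h5

lemma exists_isolated' (m : ℕ) : ∃ O : Set (S k), IsOpen O ∧
    O ∩ range (co : Y k → S k) = {co (Sum.inl m)} := by
  obtain ⟨n, O, hO, hOn⟩ := exists_isolated (k := k)
  refine ⟨(fun s => io (Equiv.swap n m) * s) ⁻¹' O, hO.preimage (continuous_const_mul _), ?_⟩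
  apply Subset.antisymm
  · rintro s ⟨h1, ⟨y, rfl⟩⟩
    have h2 : (co (act (Equiv.swap n m) y) : S k) ∈ O ∩ range co := ⟨h1, ⟨_, rfl⟩⟩
    rw [hOn, mem_singleton_iff] at h2
    have h3 := co_inj h2
    rw [mem_singleton_iff]
    congr 1
    have h4 : act (Equiv.swap n m) (act (Equiv.swap n m) y) = y := by
      rw [← act_mul, Equiv.swap_mul_self, act_one]
    rw [← h4, h3, act_inl, Equiv.swap_apply_left]
  · intro s hs
    rw [mem_singleton_iff] at hs
    subst hs
    refine ⟨?_, ⟨_, rfl⟩⟩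
    show io (Equiv.swap n m) * co (Sum.inl m) ∈ O
    rw [io_mul_co, act_inl, Equiv.swap_apply_right]
    have : (co (Sum.inl n) : S k) ∈ O ∩ range co := by rw [hOn]; rfl
    exact this.1

lemma mul_co_mem (s : S k) (y : Y k) : s * co y ∈ range (co : Y k → S k) := by
  rcases S_cases s with ⟨g, rfl⟩ | ⟨z, rfl⟩
  · exact ⟨_, rfl⟩
  · exact ⟨z, (co_mul _ _).symm⟩

lemma isOpen_ev (i j : ℕ) : IsOpen {s : S k | s * co (Sum.inl i) = co (Sum.inl j)} := by
  obtain ⟨O, hO, hOj⟩ := exists_isolated' (k := k) j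
  have : {s : S k | s * co (Sum.inl i) = co (Sum.inl j)} =
      (fun s => s * co (Sum.inl i)) ⁻¹' O := by
    ext s
    constructor
    · intro h
      show s * co (Sum.inl i) ∈ O
      rw [show s * co (Sum.inl i) = co (Sum.inl j) from h]
      have : (co (Sum.inl j) : S k) ∈ O ∩ range co := by rw [hOj]; rfl
      exact this.1
    · intro h
      have h2 : s * co (Sum.inl i) ∈ O ∩ range (co : Y k → S k) := ⟨h, mul_co_mem _ _⟩
      rw [hOj] at h2
      exact h2
  rw [this]
  exact hO.preimage (continuous_mul_const _)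

lemma isOpen_const (n : ℕ) : IsOpen ({co (Sum.inl n)} : Set (S k)) := by
  have : ({co (Sum.inl n)} : Set (S k)) = {s : S k | s * co (Sum.inl 0) = co (Sum.inl n)} ∩
      {s : S k | s * co (Sum.inl 1) = co (Sum.inl n)} := by
    ext s
    constructor
    · intro h
      rw [mem_singleton_iff] at h
      subst h
      exact ⟨co_mul _ _, co_mul _ _⟩
    · rintro ⟨h1, h2⟩
      rcases S_cases s with ⟨g, rfl⟩ | ⟨y, rfl⟩
      · have h3 : (io g : S k) * co (Sum.inl 0) = co (Sum.inl n) := h1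
        have h4 : (io g : S k) * co (Sum.inl 1) = co (Sum.inl n) := h2
        rw [io_mul_co] at h3 h4
        have h5 : g 0 = n := Sum.inl_injective (co_inj h3)
        have h6 : g 1 = n := Sum.inl_injective (co_inj h4)
        have h7 := g.injective (h5.trans h6.symm)
        exact absurd h7 (by norm_num)
      · exact h1
  rw [this]
  exact (isOpen_ev 0 n).inter (isOpen_ev 1 n)

/-- The topology induced on the permutations is the pointwise one. -/
theorem induced_io : TopologicalSpace.induced (io : G → S k) inferInstance = tp := by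
  let tG : TopologicalSpace G := TopologicalSpace.induced (io : G → S k) inferInstance
  have hcont : @Continuous G (S k) tG _ io := continuous_induced_dom
  have hemb : @IsOpenEmbedding G (S k) tG _ io :=
    @IsOpenEmbedding.mk _ _ tG _ io
      (@IsEmbedding.mk _ _ tG _ io (@IsInducing.mk _ _ tG _ io rfl) (fun g h hgh => io_inj hgh))
      isOpen_range_io
  have hpol : @PolishSpace G tG := by
    have _ : PolishSpace (range (io : G → S k)) := isOpen_range_io.polishSpace
    exact (@Homeomorph.isClosedEmbedding _ _ tG _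
      (@IsEmbedding.toHomeomorph _ _ tG _ io hemb.toIsEmbedding)).polishSpace
  apply eq_of_le hpol polish_tp
  · apply le_tp
    intro n m
    have h1 : {g : G | g n = m} = io ⁻¹' {s : S k | s * co (Sum.inl n) = co (Sum.inl m)} := by
      ext g
      constructor
      · intro h
        show (io g : S k) * co (Sum.inl n) = co (Sum.inl m)
        rw [io_mul_co, act_inl, show g n = m from h]
      · intro h
        have h2 : (io g : S k) * co (Sum.inl n) = co (Sum.inl m) := h
        rw [io_mul_co] at h2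
        exact Sum.inl_injective (co_inj h2)
    rw [h1]
    exact (isOpen_ev n m).preimage hcont
  · exact continuousMul_tp
  · intro a
    have h1 : @Continuous G (S k) tG _ (fun g => io a * io g) :=
      (continuous_const_mul (io a : S k)).comp hcont
    rw [continuous_induced_rng]
    exact h1

/-- A combinatorial lemma about the permutations: if `g` moves the finite set `A` off itself then
`g x g` fixes `A` pointwise, for some `x` which fixes `A` pointwise. -/
lemma exists_middle (g : G) (A : Finset ℕ) (hA : ∀ i ∈ A, g i ∉ A) :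
    ∃ x : G, (∀ i ∈ A, x i = i) ∧ ∀ i ∈ A, (g * x * g) i = i := by
  classical
  have hA' : ∀ i ∈ A, g.symm i ∉ A := by
    intro i hi hmem
    have := hA _ hmem
    rw [g.apply_symm_apply] at this
    exact this hi
  let T : Finset ℕ := A ∪ A.image g ∪ A.image g.symm
  let f : ℕ → ℕ := fun n => if n ∈ A then n else g.symm (g.symm n)
  let s : Finset {n // n ∈ T} := Finset.univ.filter (fun n => n.1 ∈ A ∪ A.image g)
  have hf : ∀ n ∈ A ∪ A.image g, f n ∈ T := by
    intro n hn
    simp only [f]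
    split_ifs with h
    · exact Finset.mem_union_left _ (Finset.mem_union_left _ h)
    · rcases Finset.mem_union.1 hn with h' | h'
      · exact absurd h' h
      · obtain ⟨i, hi, rfl⟩ := Finset.mem_image.1 h'
        rw [g.symm_apply_apply]
        exact Finset.mem_union_right _ (Finset.mem_image_of_mem _ hi)
  have hinj : ∀ n ∈ A ∪ A.image g, ∀ m ∈ A ∪ A.image g, f n = f m → n = m := by
    have key : ∀ n ∈ A ∪ A.image g, n ∉ A → f n ∉ A := by
      intro n hn h
      simp only [f, if_neg h]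
      rcases Finset.mem_union.1 hn with h' | h'
      · exact absurd h' h
      · obtain ⟨i, hi, rfl⟩ := Finset.mem_image.1 h'
        rw [g.symm_apply_apply]
        exact hA' i hi
    intro n hn m hm hnm
    by_cases h1 : n ∈ A <;> by_cases h2 : m ∈ A
    · simpa [f, h1, h2] using hnm
    · exfalso
      apply key m hm h2
      rw [← hnm]
      simp [f, h1]
    · exfalso
      apply key n hn h1
      rw [hnm]
      simp [f, h2]
    · simp only [f, if_neg h1, if_neg h2] at hnm
      exact g.symm.injective (g.symm.injective hnm)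
  obtain ⟨e, he⟩ := Finset.exists_equiv_extend_of_card_eq (t := T) (s := s)
    (f := fun n : {n // n ∈ T} => f n.1) (by simp) (by
      intro n hn
      obtain ⟨m, hm, rfl⟩ := Finset.mem_image.1 hn
      exact hf _ (Finset.mem_filter.1 hm).2) (by
      intro n hn m hm hnm
      exact Subtype.ext (hinj _ (Finset.mem_filter.1 hn).2 _ (Finset.mem_filter.1 hm).2 hnm))
  let e' : Equiv.Perm {n // n ∈ T} := e
  refine ⟨Equiv.Perm.ofSubtype e', ?_, ?_⟩
  · intro i hi
    have hiT : i ∈ T := Finset.mem_union_left _ (Finset.mem_union_left _ hi)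
    rw [Equiv.Perm.ofSubtype_apply_of_mem e' hiT]
    have := he ⟨i, hiT⟩ (Finset.mem_filter.2 ⟨Finset.mem_univ _, Finset.mem_union_left _ hi⟩)
    rw [show ((e' ⟨i, hiT⟩ : {n // n ∈ T}) : ℕ) = ((e ⟨i, hiT⟩ : {n // n ∈ T}) : ℕ) from rfl, this]
    simp [f, hi]
  · intro i hi
    have hiT : g i ∈ T :=
      Finset.mem_union_left _ (Finset.mem_union_right _ (Finset.mem_image_of_mem _ hi))
    rw [Equiv.Perm.mul_apply, Equiv.Perm.mul_apply, Equiv.Perm.ofSubtype_apply_of_mem e' hiT]
    have := he ⟨g i, hiT⟩ (Finset.mem_filter.2 ⟨Finset.mem_univ _,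
      Finset.mem_union_right _ (Finset.mem_image_of_mem _ hi)⟩)
    rw [show ((e' ⟨g i, hiT⟩ : {n // n ∈ T}) : ℕ) = ((e ⟨g i, hiT⟩ : {n // n ∈ T}) : ℕ) from rfl,
      this]
    simp [f, hA i hi]

lemma tp_nhds_one {O : Set G} (hO : O ∈ @nhds G tp 1) :
    ∃ A : Finset ℕ, ∀ g : G, (∀ i ∈ A, g i = i) → g ∈ O := by
  let _ : TopologicalSpace G := tp
  have h1 : 𝓝 (1 : G) = comap (fun g : G => ((g : ℕ → ℕ), ((g⁻¹ : G) : ℕ → ℕ)))
      (𝓝 (((1 : G) : ℕ → ℕ), (((1 : G)⁻¹ : G) : ℕ → ℕ))) := nhds_induced _ _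
  rw [h1] at hO
  obtain ⟨W, hW, hsub⟩ := hO
  rw [nhds_prod_eq, Filter.mem_prod_iff] at hW
  obtain ⟨W1, hW1, W2, hW2, hW12⟩ := hW
  rw [nhds_pi, Filter.mem_pi] at hW1 hW2
  obtain ⟨I1, hI1, t1, ht1, hs1⟩ := hW1
  obtain ⟨I2, hI2, t2, ht2, hs2⟩ := hW2
  refine ⟨hI1.toFinset ∪ hI2.toFinset, fun g hg => hsub (hW12 ⟨hs1 ?_, hs2 ?_⟩)⟩
  · intro i hi
    have h2 := mem_of_mem_nhds (ht1 i)
    show g i ∈ t1 i
    rw [hg i (Finset.mem_union_left _ (hI1.mem_toFinset.2 hi))]
    exact h2
  · intro i hi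
    have h2 := mem_of_mem_nhds (ht2 i)
    show g⁻¹ i ∈ t2 i
    have h3 : g⁻¹ i = i := by
      rw [Equiv.Perm.inv_eq_iff_eq]
      exact (hg i (Finset.mem_union_right _ (hI2.mem_toFinset.2 hi))).symm
    rw [h3]
    simpa using h2

/-- The permutations do not accumulate at a constant. -/
lemma notMem_closure (j : Fin k) : (co (Sum.inr j) : S k) ∉ closure (range (io : G → S k)) := by
  intro hcl
  set z : S k := co (Sum.inr j) with hz
  have hzz : z * z = z := co_mul _ _
  have hze : z * io 1 = z := co_mul _ _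
  have hez : io 1 * z = z := io_one_mul z
  -- a neighbourhood whose square does not contain the unit
  have hU : {s : S k | s ≠ io 1} ∈ 𝓝 z :=
    (isOpen_ne).mem_nhds (fun h => io_ne_co 1 (Sum.inr j) h.symm)
  have h1 : Tendsto (fun p : S k × S k => p.1 * p.2) (𝓝 (z, z)) (𝓝 z) := by
    have := (continuous_mul (M := S k)).tendsto (z, z)
    simpa only [hzz] using this
  have h2 := h1 hU
  rw [mem_map, nhds_prod_eq, Filter.mem_prod_same_iff] at h2
  obtain ⟨U', hU', hU'2⟩ := h2
  -- the two-sided translates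
  have h3 : Tendsto (fun p : S k × S k => p.1 * p.2) (𝓝 (io 1, z)) (𝓝 z) := by
    have := (continuous_mul (M := S k)).tendsto (io 1, z)
    simpa only [hez] using this
  have h4 := h3 hU'
  rw [mem_map, nhds_prod_eq, Filter.mem_prod_iff] at h4
  obtain ⟨O, hO, W, hW, hOW⟩ := h4
  -- the trace of `O` on the permutations
  have hO2 : io ⁻¹' O ∈ @nhds G tp 1 := by
    rw [← induced_io (k := k)]
    rw [@nhds_induced]
    exact preimage_mem_comap hO
  obtain ⟨A, hA⟩ := tp_nhds_one hO2
  -- a permutation in `W` and in `U'` which moves `A` off itself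
  have hWA : ∀ᶠ s in 𝓝 z, ∀ i ∈ A, ∀ l ∈ A, s * co (Sum.inl i) ≠ co (Sum.inl l) := by
    rw [Filter.eventually_all_finset]
    intro i _
    rw [Filter.eventually_all_finset]
    intro l _
    have hopen : IsOpen {s : S k | s * co (Sum.inl i) ≠ co (Sum.inl l)} :=
      isOpen_ne.preimage (continuous_mul_const (co (Sum.inl i) : S k))
    refine hopen.mem_nhds ?_
    show z * co (Sum.inl i) ≠ co (Sum.inl l)
    rw [hz, co_mul]
    exact fun h => absurd (co_inj h) Sum.inr_ne_inl
  have hN : W ∩ U' ∩ {s | ∀ i ∈ A, ∀ l ∈ A, s * co (Sum.inl i) ≠ co (Sum.inl l)} ∈ 𝓝 z :=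
    inter_mem (inter_mem hW hU') hWA
  obtain ⟨s, hs, ⟨g, rfl⟩⟩ := mem_closure_iff_nhds.1 hcl _ hN
  have hgA : ∀ i ∈ A, g i ∉ A := by
    intro i hi hmem
    exact hs.2 i hi _ hmem (io_mul_co g (Sum.inl i))
  obtain ⟨x, hx1, hx2⟩ := exists_middle g A hgA
  -- `x g ∈ U'`, `g ∈ U'`
  have h5 : (io (x * g) : S k) ∈ U' := by
    rw [← io_mul_io]
    exact hOW (⟨hA x hx1, hs.1.1⟩ : (io x, io g) ∈ O ×ˢ W)
  -- `(g x g)⁻¹ g ∈ U'`
  have h6 : (io ((g * x * g)⁻¹ * g) : S k) ∈ U' := by
    rw [← io_mul_io]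
    refine hOW (⟨hA _ ?_, hs.1.1⟩ : (io (g * x * g)⁻¹, io g) ∈ O ×ˢ W)
    intro i hi
    rw [Equiv.Perm.inv_eq_iff_eq]
    exact (hx2 i hi).symm
  have h7 : (io ((g * x * g)⁻¹ * g) * io (x * g) : S k) ≠ io 1 :=
    hU'2 (⟨h6, h5⟩ : (io ((g * x * g)⁻¹ * g), io (x * g)) ∈ U' ×ˢ U')
  apply h7
  rw [io_mul_io]
  congr 1
  group

lemma isClosed_range_io : IsClosed (range (io : G → S k)) := by
  rw [← closure_subset_iff_isClosed]
  intro s hs
  rcases S_cases s with ⟨g, rfl⟩ | ⟨y, rfl⟩
  · exact ⟨g, rfl⟩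
  · rcases y with n | j
    · obtain ⟨t, ht, ⟨g, rfl⟩⟩ := mem_closure_iff.1 hs _ (isOpen_const n) rfl
      exact absurd ht (io_ne_co _ _)
    · exact absurd hs (notMem_closure j)

lemma isOpen_range_co : IsOpen (range (co : Y k → S k)) := by
  rw [← compl_compl (range (co : Y k → S k)), compl_range_co]
  exact isClosed_range_io.isOpen_compl

/-- The trace on the natural numbers of the neighbourhood filter of an additional point. -/
def FF (j : Fin k) : Filter ℕ := comap (fun n => (co (Sum.inl n) : S k)) (𝓝 (co (Sum.inr j)))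

lemma FF_le (j : Fin k) : FF j ≤ cofinite := by
  intro A hA
  have h1 : ((fun n => (co (Sum.inl n) : S k)) '' Aᶜ)ᶜ ∈ 𝓝 (co (Sum.inr j) : S k) := by
    have hfin : ((fun n => (co (Sum.inl n) : S k)) '' Aᶜ).Finite := Set.Finite.image _ hA
    refine hfin.isClosed.isOpen_compl.mem_nhds ?_
    rintro ⟨n, _, hn⟩
    exact absurd (co_inj hn) Sum.inl_ne_inr
  refine ⟨_, h1, ?_⟩
  intro n hn
  by_contra hne
  exact hn ⟨n, hne, rfl⟩

lemma FF_inv (j : Fin k) (g : G) {A : Set ℕ} (hA : A ∈ FF j) : g ⁻¹' A ∈ FF j := by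
  obtain ⟨W, hW, hsub⟩ := hA
  have h1 : Tendsto (fun s : S k => io g * s) (𝓝 (co (Sum.inr j))) (𝓝 (co (Sum.inr j))) := by
    have := (continuous_const_mul (io g : S k)).tendsto (co (Sum.inr j))
    simpa only [io_mul_co, act_inr] using this
  refine ⟨_, h1 hW, ?_⟩
  intro n hn
  apply hsub
  show (co (Sum.inl (g n)) : S k) ∈ W
  have h2 : (io g * co (Sum.inl n) : S k) ∈ W := hn
  rwa [io_mul_co] at h2

lemma exists_perm_swap {A : Set ℕ} (hA : A.Infinite) (hA' : Aᶜ.Infinite) :
    ∃ g : G, g ⁻¹' A = Aᶜ := by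
  classical
  have _ : Infinite A := hA.to_subtype
  have _ : Infinite (Aᶜ : Set ℕ) := hA'.to_subtype
  obtain ⟨e⟩ : Nonempty (A ≃ (Aᶜ : Set ℕ)) := by
    have _ : Denumerable A := Denumerable.ofEncodableOfInfinite A
    have _ : Denumerable (Aᶜ : Set ℕ) := Denumerable.ofEncodableOfInfinite _
    exact ⟨Denumerable.equiv₂ _ _⟩
  let g : G := (Equiv.Set.sumCompl A).symm.trans
    ((Equiv.sumCongr e e.symm).trans ((Equiv.sumComm _ _).trans (Equiv.Set.sumCompl A)))
  refine ⟨g, ?_⟩
  ext n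
  simp only [mem_preimage, mem_compl_iff]
  by_cases hn : n ∈ A
  · have h1 : g n = (e ⟨n, hn⟩ : ℕ) := by
      simp [g, Equiv.Set.sumCompl_symm_apply_of_mem hn]
    rw [h1]
    exact ⟨fun h => absurd h (e ⟨n, hn⟩).2, fun h => absurd hn h⟩
  · have h1 : g n = (e.symm ⟨n, hn⟩ : ℕ) := by
      simp [g, Equiv.Set.sumCompl_symm_apply_of_notMem hn]
    rw [h1]
    exact ⟨fun _ => hn, fun _ => (e.symm ⟨n, hn⟩).2⟩

lemma FF_dichotomy (j : Fin k) : FF j = ⊥ ∨ FF j = cofinite := by
  by_cases hbot : FF j = ⊥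
  · exact Or.inl hbot
  · right
    apply le_antisymm (FF_le j)
    intro A hA
    by_contra hinf
    have hAc : Aᶜ.Infinite := fun h => hinf (by simpa using h)
    have hAi : A.Infinite := by
      intro hfin
      apply hbot
      rw [← empty_mem_iff_bot]
      have h2 : Aᶜ ∈ FF j := FF_le j (by simpa using hfin)
      have h3 := inter_mem hA h2
      rwa [inter_compl_self] at h3
    obtain ⟨g, hg⟩ := exists_perm_swap hAi hAc
    apply hbot
    rw [← empty_mem_iff_bot]
    have h2 := FF_inv j g hA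
    rw [hg] at h2
    have h3 := inter_mem hA h2
    rwa [inter_compl_self] at h3

lemma FF_unique {i j : Fin k} (hi : FF i = cofinite) (hj : FF j = cofinite) : i = j := by
  by_contra hne
  have h1 : Disjoint (𝓝 (co (Sum.inr i) : S k)) (𝓝 (co (Sum.inr j) : S k)) := by
    rw [disjoint_nhds_nhds]
    exact fun h => hne (Sum.inr_injective (co_inj h))
  have h2 : Disjoint (FF i) (FF j) := by
    rw [disjoint_iff] at h1 ⊢
    show comap _ _ ⊓ comap _ _ = ⊥
    rw [← comap_inf, h1, comap_bot]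
  rw [hi, hj, disjoint_self] at h2
  exact (cofinite_neBot (α := ℕ)).ne h2

end

end Q214.NST
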